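import Pool.Agent.H.MP_362855_co.B

namespace Pool.Agent.Results.MP_362855_co.Bound

open Pointwise PowerSeries

/-- The lattice polytope spanned by a finite set of integer points. -/
def poly {d : ℕ} (S : Finset (Fin d → ℤ)) : Set (Fin d → ℝ) :=
  convexHull ℝ ((fun z i => (z i : ℝ)) '' (S : Set (Fin d → ℤ)))

/-- Number of integer points in the `m`-th dilate. -/
noncomputable def ehr {d : ℕ} (P : Set (Fin d → ℝ)) (m : ℕ) : ℕ :=
  Set.ncard {z : Fin d → ℤ | (fun i => (z i : ℝ)) ∈ (m : ℝ) • P}

/-- Numerator of the Ehrhart series of a full-dimensional polytope. -/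
noncomputable def hstar {d : ℕ} (P : Set (Fin d → ℝ)) : PowerSeries ℤ :=
  (1 - X) ^ (d + 1) * PowerSeries.mk (fun m => (ehr P m : ℤ))

theorem coeff01 (F : PowerSeries ℤ) (n : ℕ) : coeff 0 ((1 - X) ^ n * F) = coeff 0 F ∧
    coeff 1 ((1 - X) ^ n * F) = coeff 1 F - n * coeff 0 F := by
  induction n with
  | zero => simp
  | succ n ih =>
    have : (1 - X) ^ (n + 1) * F = (1 - X) ^ n * F - X * ((1 - X) ^ n * F) := by ring
    rw [this, map_sub, map_sub, coeff_zero_X_mul, coeff_succ_X_mul, ih.1, ih.2]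
    push_cast
    constructor <;> ring

theorem result (d k a b : ℕ) (hk : 2 ≤ k) (hb : 2 ≤ b) (S : Finset (Fin d → ℤ))
    (hdim : affineSpan ℝ (poly S) = ⊤)
    (h : hstar (poly S) = 1 + (a : PowerSeries ℤ) * X ^ k + (b : PowerSeries ℤ) * X ^ (2 * k)) :
    a + b + 1 ≤ (4 * b + 4) * k := by
  classical
  have hr : poly S = convexHull ℝ (Set.range (fun (i : S) j => (i.1 j : ℝ))) := by
    unfold poly
    rw [Set.image_eq_range]
    rfl
  have hsp : affineSpan ℝ (Set.range (fun (i : S) j => (i.1 j : ℝ))) = ⊤ := by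
    rw [← hdim, hr, affineSpan_convexHull]
  have : Nonempty S := by
    have := AffineSubspace.nonempty_of_affineSpan_eq_top ℝ _ _ hsp
    exact Set.range_nonempty_iff_nonempty.1 this
  have hvs : Module.finrank ℝ (vectorSpan ℝ (Set.range (fun (i : S) j => (i.1 j : ℝ)))) = d := by
    rw [AffineSubspace.vectorSpan_eq_top_of_affineSpan_eq_top ℝ _ _ hsp]
    simp
  have c := coeff01 (PowerSeries.mk (fun m => (ehr (poly S) m : ℤ))) (d + 1)
  have h' := h
  unfold hstar at h'
  rw [h'] at c
  simp only [map_add, ← nsmul_eq_mul, map_nsmul, coeff_X_pow, coeff_mk, coeff_one] at c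
  rw [if_pos trivial, if_neg (by omega), if_neg (by omega), if_neg (by omega), if_neg (by omega),
    if_neg (by omega)] at c
  have c1 : ehr (poly S) 1 = d + 1 := by
    obtain ⟨c1, c2⟩ := c
    simp only [smul_zero, add_zero] at c1 c2
    rw [← c1, nsmul_eq_mul] at c2
    push_cast at c2
    omega
  have hle : S.card ≤ d + 1 := by
    rw [← c1, ← Set.ncard_coe_finset]
    refine Set.ncard_le_ncard (fun z hz => ?_) (Pool.Agent.H.MP_362855_co.finite_pts _ ?_)
    · simp only [Nat.cast_one, one_smul, Set.mem_ofPred_eq]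
      exact subset_convexHull ℝ _ ⟨z, hz, rfl⟩
    · rw [hr]
      exact (isBounded_convexHull.2 (Set.finite_range _).isBounded).smul₀ _
  have hge := finrank_vectorSpan_range_add_one_le ℝ (fun (i : S) j => (i.1 j : ℝ))
  have hc : Fintype.card S = d + 1 := by
    rw [hvs] at hge
    rw [Fintype.card_coe] at hge ⊢
    omega
  have hai := (affineIndependent_iff_le_finrank_vectorSpan ℝ (fun (i : S) j => (i.1 j : ℝ)) hc).2
    hvs.ge
  refine Pool.Agent.H.MP_362855_co.simplex_bound (ι := S) (fun i => i.1) (fun w h1 h2 i => ?_) k a b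
    (by omega) hb ?_
  · refine affineIndependent_iff.1 hai Finset.univ w h1 ?_ i (Finset.mem_univ _)
    funext j
    simpa [Finset.sum_apply] using h2 j
  · rw [hc, ← h, ← hr]
    rfl

end Pool.Agent.Results.MP_362855_co.Bound
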